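import Pool.Agent.Lib.MP_eee7a8_ag.TB.IfaceB

/-!
# TAGBR Part B, module NCS: separated pairs do not cross
-/

open Matrix

namespace Pool.Agent.Lib.MP_eee7a8_ag.TB.PB.H29

/-- Signs of the products of four determinants. -/
theorem ncs_real (p q p' q' r u r' u' : ℝ) (ha : 0 ≤ p * q) (hb : 0 ≤ p' * q')
    (hc : r * u ≤ 0) (hd : r' * u' ≤ 0) :
    0 ≤ (p * u - r * q) * (p' * u - r * q') * ((p * u' - r' * q) * (p' * u' - r' * q')) := by
  have fac : ∀ p q r u : ℝ, ∀ e : ℝ, (0 ≤ e * p ∧ 0 ≤ e * q) →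
      ∀ f : ℝ, (0 ≤ f * r ∧ f * u ≤ 0) → e * f * (p * u - r * q) ≤ 0 := by
    intro p q r u e he f hf
    have h1 : e * f * (p * u - r * q) = (e * p) * (f * u) - (f * r) * (e * q) := by ring
    rw [h1]
    have h2 := mul_nonneg he.1 (neg_nonneg.2 hf.2)
    have h3 := mul_nonneg hf.1 he.2
    linarith
  have ex1 : ∀ p q : ℝ, 0 ≤ p * q → ∃ e : ℝ, e * e = 1 ∧ 0 ≤ e * p ∧ 0 ≤ e * q := by
    intro p q h
    rcases mul_nonneg_iff.1 h with ⟨h1, h2⟩ | ⟨h1, h2⟩
    · exact ⟨1, by norm_num, by linarith, by linarith⟩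
    · exact ⟨-1, by norm_num, by linarith, by linarith⟩
  have ex2 : ∀ p q : ℝ, p * q ≤ 0 → ∃ e : ℝ, e * e = 1 ∧ 0 ≤ e * p ∧ e * q ≤ 0 := by
    intro p q h
    rcases mul_nonpos_iff.1 h with ⟨h1, h2⟩ | ⟨h1, h2⟩
    · exact ⟨1, by norm_num, by linarith, by linarith⟩
    · exact ⟨-1, by norm_num, by linarith, by linarith⟩
  obtain ⟨ea, ea1, ea2⟩ := ex1 p q ha
  obtain ⟨eb, eb1, eb2⟩ := ex1 p' q' hb
  obtain ⟨ec, ec1, ec2⟩ := ex2 r u hc
  obtain ⟨ed, ed1, ed2⟩ := ex2 r' u' hd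
  have f1 := fac p q r u ea ea2 ec ec2
  have f2 := fac p' q' r u eb eb2 ec ec2
  have f3 := fac p q r' u' ea ea2 ed ed2
  have f4 := fac p' q' r' u' eb eb2 ed ed2
  have f5 := mul_nonneg_of_nonpos_of_nonpos f1 f2
  have f6 := mul_nonneg_of_nonpos_of_nonpos f3 f4
  have f7 := mul_nonneg f5 f6
  have f8 : ea * ec * (p * u - r * q) * (eb * ec * (p' * u - r * q')) *
      (ea * ed * (p * u' - r' * q) * (eb * ed * (p' * u' - r' * q'))) =
      (ea * ea) * (eb * eb) * (ec * ec) * (ed * ed) *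
      ((p * u - r * q) * (p' * u - r * q') * ((p * u' - r' * q) * (p' * u' - r' * q'))) := by ring
  rw [f8, ea1, eb1, ec1, ed1] at f7
  linarith

/-- Real linear factors of an indefinite form. -/
theorem factors (f : QF) (hf : 0 < f.disc) : ∃ (l m : Cusp → ℝ) (k : ℝ), k ≠ 0 ∧
    (∀ v, (f.ev v : ℝ) = l v * m v) ∧ ∀ v w, l v * m w - l w * m v = k * dt v w := by
  by_cases h0 : f.a = 0
  · have hb : f.b ≠ 0 := by
      intro hb
      unfold QF.disc at hf
      rw [h0, hb] at hf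
      norm_num at hf
    refine ⟨fun v => v.y, fun v => f.b * v.x + f.c * v.y, -f.b, ?_, ?_, ?_⟩
    · exact neg_ne_zero.2 (Int.cast_ne_zero.2 hb)
    · intro v
      unfold QF.ev
      rw [h0]
      push_cast
      ring
    · intro v w
      unfold dt
      push_cast
      ring
  · have ha : (f.a : ℝ) ≠ 0 := Int.cast_ne_zero.2 h0
    set s : ℝ := Real.sqrt (f.disc : ℝ) with hs
    have hd : (0 : ℝ) < (f.disc : ℝ) := by exact_mod_cast hf
    have hs0 : 0 < s := Real.sqrt_pos.2 hd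
    have hs2 : s * s = (f.disc : ℝ) := Real.mul_self_sqrt hd.le
    have hs3 : s * s = (f.b : ℝ) ^ 2 - 4 * f.a * f.c := by
      rw [hs2]; unfold QF.disc; push_cast; ring
    refine ⟨fun v => f.a * v.x + (f.b - s) / 2 * v.y,
      fun v => v.x + (f.b + s) / (2 * f.a) * v.y, s, hs0.ne', ?_, ?_⟩
    · intro v
      unfold QF.ev
      push_cast
      field_simp
      linear_combination (v.y ^ 2 : ℝ) * hs3
    · intro v w
      unfold dt
      push_cast
      field_simp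
      ring

theorem ncs : NCS_S := by
  intro f a b c d hf ha hb hc hd hX
  obtain ⟨l, m, k, hk, hev, hdt⟩ := factors f hf
  have ha' : 0 ≤ l a * m a := by rw [← hev]; exact_mod_cast ha
  have hb' : 0 ≤ l b * m b := by rw [← hev]; exact_mod_cast hb
  have hc' : l c * m c ≤ 0 := by rw [← hev]; exact_mod_cast hc
  have hd' : l d * m d ≤ 0 := by rw [← hev]; exact_mod_cast hd
  have h1 := ncs_real (l a) (m a) (l b) (m b) (l c) (m c) (l d) (m d) ha' hb' hc' hd'
  rw [hdt, hdt, hdt, hdt] at h1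
  unfold Cross at hX
  have hX' : ((dt a c : ℝ) * dt b c) * (dt a d * dt b d) < 0 := by exact_mod_cast hX
  have h2 : k * (dt a c : ℝ) * (k * dt b c) * (k * dt a d * (k * dt b d)) =
      (k * k) * (k * k) * (((dt a c : ℝ) * dt b c) * (dt a d * dt b d)) := by ring
  rw [h2] at h1
  have hkk : 0 < k * k := mul_self_pos.2 hk
  have h3 := mul_neg_of_pos_of_neg (mul_pos hkk hkk) hX'
  linarith

end Pool.Agent.Lib.MP_eee7a8_ag.TB.PB.H29
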