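import Pool.Agent.Lib.MP_eee7a8_ag.TB.IfaceB

/-!
# TAGBR Part B, module AST: the single strand inequality, summed
-/

open Matrix

namespace Pool.Agent.Lib.MP_eee7a8_ag.TB.PB.H29

theorem meets_eq (f : QF) (x y : Cusp) : f.Meets Eq x y ↔ f.ev x * f.ev y < 0 := by
  unfold QF.Meets
  constructor
  · exact fun h => h.1
  · intro h
    refine ⟨h, fun z hz => ⟨?_, ?_⟩⟩
    · rintro rfl
      rw [hz, zero_mul] at h
      exact lt_irrefl _ h
    · rintro rfl
      rw [hz, mul_zero] at h
      exact lt_irrefl _ h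

/-- Signs: a strand meeting `ac` meets `ab` or `cd`; a strand meeting `ac` and `bd` meets both. -/
theorem ast_side (h1 : NCS_S) {f : QF} {a b c d : Cusp} (hf : 0 < f.disc) (h : Cross a b c d)
    (hac : f.ev a * f.ev c < 0) : f.ev a * f.ev b < 0 ∨ f.ev c * f.ev d < 0 := by
  by_contra hn
  push Not at hn
  obtain ⟨hab, hcd⟩ := hn
  rcases lt_or_gt_of_ne (show f.ev a ≠ 0 from fun e => by rw [e] at hac; simp at hac) with ha | ha
  · have hc : 0 < f.ev c := by
      by_contra hc
      have := mul_nonneg_of_nonpos_of_nonpos ha.le (not_lt.1 hc)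
      linarith
    have hb : f.ev b ≤ 0 := by
      by_contra hb
      have := mul_neg_of_neg_of_pos ha (not_le.1 hb)
      linarith
    have hd : 0 ≤ f.ev d := by
      by_contra hd
      have := mul_neg_of_pos_of_neg hc (not_le.1 hd)
      linarith
    exact h1 f c d a b hf hc.le hd ha.le hb (cross_swap.1 h)
  · have hc : f.ev c < 0 := by
      by_contra hc
      have := mul_nonneg ha.le (not_lt.1 hc)
      linarith
    have hb : 0 ≤ f.ev b := by
      by_contra hb
      have := mul_neg_of_pos_of_neg ha (not_le.1 hb)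
      linarith
    have hd : f.ev d ≤ 0 := by
      by_contra hd
      have := mul_neg_of_neg_of_pos hc (not_le.1 hd)
      linarith
    exact h1 f a b c d hf ha.le hb hc.le hd h

theorem ast_sides (h1 : NCS_S) {f : QF} {a b c d : Cusp} (hf : 0 < f.disc) (h : Cross a b c d)
    (hac : f.ev a * f.ev c < 0) (hbd : f.ev b * f.ev d < 0) :
    f.ev a * f.ev b < 0 ∧ f.ev c * f.ev d < 0 := by
  rcases lt_or_gt_of_ne (show f.ev a ≠ 0 from fun e => by rw [e] at hac; simp at hac) with ha | ha
  · have hc : 0 < f.ev c := by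
      by_contra hc
      have := mul_nonneg_of_nonpos_of_nonpos ha.le (not_lt.1 hc)
      linarith
    rcases lt_or_gt_of_ne (show f.ev b ≠ 0 from fun e => by rw [e] at hbd; simp at hbd)
      with hb | hb
    · have hd : 0 < f.ev d := by
        by_contra hd
        have := mul_nonneg_of_nonpos_of_nonpos hb.le (not_lt.1 hd)
        linarith
      exact absurd (cross_swap.1 h) (h1 f c d a b hf hc.le hd.le ha.le hb.le)
    · have hd : f.ev d < 0 := by
        by_contra hd
        have := mul_nonneg hb.le (not_lt.1 hd)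
        linarith
      exact ⟨mul_neg_of_neg_of_pos ha hb, mul_neg_of_pos_of_neg hc hd⟩
  · have hc : f.ev c < 0 := by
      by_contra hc
      have := mul_nonneg ha.le (not_lt.1 hc)
      linarith
    rcases lt_or_gt_of_ne (show f.ev b ≠ 0 from fun e => by rw [e] at hbd; simp at hbd)
      with hb | hb
    · have hd : 0 < f.ev d := by
        by_contra hd
        have := mul_nonneg_of_nonpos_of_nonpos hb.le (not_lt.1 hd)
        linarith
      exact ⟨mul_neg_of_pos_of_neg ha hb, mul_neg_of_neg_of_pos hc hd⟩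
    · have hd : f.ev d < 0 := by
        by_contra hd
        have := mul_nonneg hb.le (not_lt.1 hd)
        linarith
      exact absurd h (h1 f a b c d hf ha.le hb.le hc.le hd.le)

theorem ast (h1 : NCS_S) (h2 : FIN_S) : AST_S := by
  intro G S hS a b c d h
  unfold XX
  simp only [meets_eq]
  set A : Set QF := {f | f ∈ S ∧ f.ev a * f.ev c < 0} with hA
  set B : Set QF := {f | f ∈ S ∧ f.ev b * f.ev d < 0} with hB
  set C : Set QF := {f | f ∈ S ∧ f.ev a * f.ev b < 0} with hC
  set D : Set QF := {f | f ∈ S ∧ f.ev c * f.ev d < 0} with hD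
  have fA : A.Finite := h2 G S hS a c
  have fB : B.Finite := h2 G S hS b d
  have fC : C.Finite := h2 G S hS a b
  have fD : D.Finite := h2 G S hS c d
  have e1 := Set.ncard_union_add_ncard_inter A B fA fB
  have e2 := Set.ncard_union_add_ncard_inter C D fC fD
  have s1 : A ∪ B ⊆ C ∪ D := by
    rintro f (⟨hf, hm⟩ | ⟨hf, hm⟩)
    · rcases ast_side h1 (hS.pos f hf) h hm with h3 | h3
      · exact Or.inl ⟨hf, h3⟩
      · exact Or.inr ⟨hf, h3⟩
    · rcases ast_side h1 (hS.pos f hf) (cross_comm_left.1 (cross_comm_right.1 h)) hm with h3 | h3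
      · exact Or.inl ⟨hf, by rw [mul_comm]; exact h3⟩
      · exact Or.inr ⟨hf, by rw [mul_comm]; exact h3⟩
  have s2 : A ∩ B ⊆ C ∩ D := by
    rintro f ⟨⟨hf, hm⟩, ⟨_, hm'⟩⟩
    have h3 := ast_sides h1 (hS.pos f hf) h hm hm'
    exact ⟨⟨hf, h3.1⟩, ⟨hf, h3.2⟩⟩
  have l1 := Set.ncard_le_ncard s1 (fC.union fD)
  have l2 := Set.ncard_le_ncard s2 (fC.inter_of_left D)
  have : A.ncard + B.ncard ≤ C.ncard + D.ncard := by omega
  exact_mod_cast this

end Pool.Agent.Lib.MP_eee7a8_ag.TB.PB.H29
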