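import Pool.Agent.Lib.MP_eee7a8_ag.TB.IfaceB

/-!
# TAGBR Part B, module PATHX: crossing paths meet
-/

open Matrix

namespace Pool.Agent.Lib.MP_eee7a8_ag.TB.PB.H29

theorem pathx : PATHX_S := by
  intro tool G hG e he u u' w w' hX hu hw
  obtain ⟨_, _, t3, t4, _, _⟩ := tool G hG e he
  by_contra hn
  set F : Cusp → ℤ := fun x => dt u x * dt u' x with hF
  have hne : ∀ x, Sim G e w x → F x ≠ 0 := by
    intro x hx h0
    rcases mul_eq_zero.1 h0 with h1 | h1
    · have h2 := dt_eq_zero.1 h1
      rw [← h2] at hx
      exact hn hx.symm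
    · have h2 := dt_eq_zero.1 h1
      rw [← h2] at hx
      exact hn (Relation.EqvGen.trans _ _ _ hu (Relation.EqvGen.symm _ _ hx))
  have key : ∀ x y, Relation.EqvGen (Ge G e) x y → Sim G e w x → 0 < F x * F y := by
    intro x y hxy
    induction hxy with
    | rel x y h =>
      intro hx
      have hy : Sim G e w y := Relation.EqvGen.trans _ _ _ hx (Relation.EqvGen.rel _ _ h)
      have h1 := hne x hx
      have h2 := hne y hy
      have h3 : ¬ Cross u u' x y := by
        intro hc
        rcases t4 u u' x y hu (t3 x y h) hc with h4 | h4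
        · exact hn (Relation.EqvGen.trans _ _ _ h4 (Relation.EqvGen.symm _ _ hx))
        · exact hn (Relation.EqvGen.trans _ _ _ h4 (Relation.EqvGen.symm _ _ hy))
      exact lt_of_le_of_ne (not_lt.1 h3) (mul_ne_zero h1 h2).symm
    | refl x =>
      intro hx
      exact mul_self_pos.2 (hne x hx)
    | symm x y h ih =>
      intro hy
      have hx : Sim G e w x := Relation.EqvGen.trans _ _ _ hy (Relation.EqvGen.symm _ _ h)
      rw [mul_comm]
      exact ih hx
    | trans x y z h h' ih ih' =>
      intro hx
      have hy : Sim G e w y := Relation.EqvGen.trans _ _ _ hx h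
      have h1 := ih hx
      have h2 := ih' hy
      have h3 : 0 < (F x * F y) * (F y * F z) := mul_pos h1 h2
      have h4 : (F x * F y) * (F y * F z) = (F y * F y) * (F x * F z) := by ring
      rw [h4] at h3
      by_contra h5
      have h6 := mul_nonneg (mul_self_nonneg (F y)) (neg_nonneg.2 (not_lt.1 h5))
      rw [mul_neg] at h6
      linarith
  have h1 := key w w' hw (Relation.EqvGen.refl _)
  unfold Cross at hX
  exact lt_irrefl _ (lt_trans h1 hX)

end Pool.Agent.Lib.MP_eee7a8_ag.TB.PB.H29
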