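import Pool.Agent.Lib.MP_eee7a8_ag.TB.IfaceB

/-!
# TAGBR Part B, module XINV: symmetry and invariance of the crossing numbers
-/

open Matrix

namespace Pool.Agent.Lib.MP_eee7a8_ag.TB.PB.H29

theorem meets_symm (r : Cusp → Cusp → Prop) (f : QF) (x y : Cusp) :
    f.Meets r x y ↔ f.Meets r y x := by
  unfold QF.Meets
  rw [mul_comm (f.ev x) (f.ev y)]
  constructor
  · rintro ⟨h1, h2⟩
    exact ⟨h1, fun z hz => ⟨(h2 z hz).2, (h2 z hz).1⟩⟩
  · rintro ⟨h1, h2⟩
    exact ⟨h1, fun z hz => ⟨(h2 z hz).2, (h2 z hz).1⟩⟩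

theorem act_inv_act (g : SLZ) (f : QF) : (f.act g).act g⁻¹ = f := by
  rw [← act_mul, inv_mul_cancel, act_one]

theorem act_act_inv (g : SLZ) (f : QF) : (f.act g⁻¹).act g = f := by
  rw [← act_mul, mul_inv_cancel, act_one]

theorem meets_act {G : Subgroup SLZ} {r : Cusp → Cusp → Prop} (hr : RelInv G r) {g : SLZ}
    (hg : g ∈ G) (f : QF) (x y : Cusp) :
    (f.act g).Meets r (g • x) (g • y) ↔ f.Meets r x y := by
  unfold QF.Meets
  rw [ev_act, ev_act]
  constructor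
  · rintro ⟨h1, h2⟩
    refine ⟨h1, fun z hz => ?_⟩
    have := h2 (g • z) (by rw [ev_act]; exact hz)
    rwa [hr g hg, hr g hg] at this
  · rintro ⟨h1, h2⟩
    refine ⟨h1, fun z hz => ?_⟩
    have h3 : f.ev (g⁻¹ • z) = 0 := by
      rw [← ev_act g, smul_inv_smul]; exact hz
    obtain ⟨h4, h5⟩ := h2 _ h3
    rw [← hr g hg (g⁻¹ • z) x, smul_inv_smul] at h4
    rw [← hr g hg (g⁻¹ • z) y, smul_inv_smul] at h5
    exact ⟨h4, h5⟩

theorem xinv : XINV_S := by
  intro G S r hS hr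
  constructor
  · intro x y
    unfold XX
    simp only [meets_symm r _ x y]
  · intro g hg x y
    unfold XX
    congr 1
    symm
    refine Set.ncard_congr (fun f _ => f.act g) ?_ ?_ ?_
    · rintro f ⟨h1, h2⟩
      exact ⟨hS.inv g hg f h1, (meets_act hr hg f x y).2 h2⟩
    · intro f f' _ _ h
      have := congrArg (QF.act g⁻¹) h
      simpa only [act_inv_act] using this
    · rintro f ⟨h1, h2⟩
      refine ⟨f.act g⁻¹, ⟨hS.inv _ (G.inv_mem hg) f h1, ?_⟩, act_act_inv g f⟩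
      rw [← meets_act hr hg, act_act_inv]
      exact h2

end Pool.Agent.Lib.MP_eee7a8_ag.TB.PB.H29
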